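import Pool.Agent.K1H19.Kom.Run

/-!
# The estimate of a step in a window (piece GOOD)
-/

namespace K19Kom

open Finset Real H167BJ H167BK H167KL

namespace Dat

variable {d n : ℕ} {C : Ctx d n} {T : ℕ} (D : Dat C T)

/-- The exponential parameter of the tests of level `q`. -/
noncomputable def Mq (q : ℕ) : ℝ := 5 * 2 ^ q

theorem rho_le (T q : ℕ) : 4 ≤ rho T q * exp (Mq q) := by
  unfold rho Mq
  have h1 : (1 / 8 : ℝ) ^ (2 ^ q - 1) ≤ (1 / 8) ^ (2 ^ q - 1 - T % 2 ^ q) :=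
    pow_le_pow_of_le_one (by norm_num) (by norm_num) (Nat.sub_le _ _)
  have h2 : (16 : ℝ) ≤ exp 5 := by
    have h3 : exp 5 = exp 1 ^ 5 := by rw [← exp_nat_mul]; norm_num
    have h4 := Real.exp_one_gt_d9
    rw [h3]
    calc (16 : ℝ) ≤ 2 ^ 5 := by norm_num
      _ ≤ exp 1 ^ 5 := pow_le_pow_left₀ (by norm_num) (by linarith) 5
  have h3 : (16 : ℝ) ^ 2 ^ q ≤ exp (5 * 2 ^ q) := by
    have h4 : exp (5 * 2 ^ q) = exp 5 ^ (2 ^ q) := by
      rw [← exp_nat_mul]; congr 1; push_cast; ring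
    rw [h4]
    exact pow_le_pow_left₀ (by norm_num) h2 _
  have h5 : q + 1 ≤ 2 ^ q := Nat.lt_two_pow_self
  obtain ⟨m, hm⟩ := Nat.exists_eq_add_of_le h5
  have h6 : (4 : ℝ) ≤ (1 / 2) ^ (q + 2) * (1 / 8) ^ (2 ^ q - 1) * 16 ^ 2 ^ q := by
    have h7 : 2 ^ q - 1 = q + m := by omega
    rw [h7, hm]
    have h8 : (1 / 2 : ℝ) ^ (q + 2) * (1 / 8) ^ (q + m) * 16 ^ (q + 1 + m) = 4 * 2 ^ m := by
      have e8 : (1 / 8 : ℝ) = (1 / 2) ^ 3 := by norm_num
      have e16 : (16 : ℝ) = 2 ^ 4 := by norm_num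
      rw [e8, e16, ← pow_mul, ← pow_mul]
      have h9 : 4 * (q + 1 + m) = (q + 2 + 3 * (q + m)) + (2 + m) := by ring
      have h10 : (1 / 2 : ℝ) ^ (q + 2 + 3 * (q + m)) * 2 ^ (q + 2 + 3 * (q + m)) = 1 := by
        rw [← mul_pow]; norm_num
      rw [h9, pow_add 2 (q + 2 + 3 * (q + m)), ← pow_add, ← mul_assoc, h10, one_mul, pow_add]
      norm_num
    rw [h8]
    have : (1 : ℝ) ≤ 2 ^ m := one_le_pow₀ (by norm_num)
    linarith
  refine h6.trans ?_
  apply mul_le_mul _ h3 (by positivity) (by positivity)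
  exact mul_le_mul_of_nonneg_left h1 (by positivity)

theorem sum_half_le (m : ℕ) : ∑ l ∈ range m, (1 / 2 : ℝ) ^ (l + 1) ≤ 1 := by
  have h3 : ∑ l ∈ range m, (1 / 2 : ℝ) ^ (l + 1) = 1 - (1 / 2) ^ m := by
    induction m with
    | zero => simp
    | succ m ih => rw [Finset.sum_range_succ, ih, pow_succ]; ring
  rw [h3]
  have : (0 : ℝ) ≤ (1 / 2) ^ m := by positivity
  linarith

theorem sum_sq_aux (m : ℕ) :
    ∑ q ∈ range (m + 1), 1 / ((q : ℝ) + 1) ^ 2 ≤ 2 - 1 / ((m : ℝ) + 1) := by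
  induction m with
  | zero => norm_num
  | succ m ih =>
    rw [Finset.sum_range_succ]
    have hm : (0 : ℝ) ≤ m := Nat.cast_nonneg m
    have h1 : 1 / (((m + 1 : ℕ) : ℝ) + 1) ^ 2 ≤ 1 / ((m : ℝ) + 1) - 1 / ((m : ℝ) + 1 + 1) := by
      push_cast
      rw [div_sub_div _ _ (by positivity) (by positivity), div_le_div_iff₀ (by positivity)
        (by positivity)]
      nlinarith
    push_cast at h1 ⊢
    linarith

theorem sum_sq_le (m : ℕ) : ∑ q ∈ range m, 1 / ((q : ℝ) + 1) ^ 2 ≤ 2 := by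
  rcases m with _ | m
  · simp
  · refine (sum_sq_aux m).trans ?_
    have : (0 : ℝ) ≤ 1 / ((m : ℝ) + 1) := by positivity
    linarith

theorem hh_eq {q : ℕ} {i : Fin d} (h : lv T i = q) : D.hh i = hp q := by
  unfold hh; rw [h]

/-- The correction of a test of level `q`. -/
theorem off_small (F : Finset (Fin n)) {q : ℕ} (hq : q < C.Pm) {v : Fin n}
    (hv : |D.z q v| < 1) :
    D.sys.off F (q, v) ≤ hp q ^ 2 * (1 / 100000) *
      ∑ i, (if lv T i = q then D.ar i v ^ 2 else 0) := by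
  have hτ : ((q, v) : ℕ × Fin n) ∈ D.sys.S := by
    show (q, v) ∈ (Finset.range C.Pm ×ˢ Finset.univ).filter (fun τ => |D.z τ.1 τ.2| < 1)
    simp only [Finset.mem_filter, Finset.mem_product, Finset.mem_range, Finset.mem_univ, and_true]
    exact ⟨hq, hv⟩
  refine (D.sys.off_le F hτ).trans ?_
  set E := ∑ i, (if lv T i = q then D.ar i v ^ 2 else 0) with hE
  have hE0 : 0 ≤ E := by
    refine Finset.sum_nonneg fun i _ => ?_
    split_ifs <;> positivity
  have hpq : 0 ≤ hp q ^ 2 := sq_nonneg _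
  have h1 : ∀ l ∈ range D.sys.L, ∑ i, D.sys.b (q, v) i l * (D.sys.w i l * D.sys.g l)
      ≤ hp q ^ 2 / 10 * E * (1 / 10000 * (1 / 2) ^ (l + 1)) := by
    intro l _
    have h2 : ∀ i, D.sys.b (q, v) i l * (D.sys.w i l * D.sys.g l)
        ≤ (if lv T i = q then D.ar i v ^ 2 else 0) * (hp q ^ 2 / 10 * (16 ^ l * exp (-Gk l))) := by
      intro i
      rw [D.b_eq]
      by_cases hi : lv T i = q
      · rw [if_pos hi, if_pos hi]
        have hw : D.sys.w i l = wk 1 (D.hh i) l := rfl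
        have hg : D.sys.g l = exp (-Gk l) := rfl
        have hθ := θk_pos (t := 1) le_rfl (D.hh_ge i) l
        have he := ek_pos (t := 1) le_rfl l
        have hsm : D.sys.sm l i v ^ 2 ≤ D.ar i v ^ 2 := D.sys.sm_sq_le l i v
        have h7 : (1 : ℝ) / ek 1 l = 16 ^ l / 10 := by
          unfold ek; field_simp
        rw [hw, hg]
        have h8 : D.sys.sm l i v ^ 2 / θk 1 (D.hh i) l ^ 2 * (wk 1 (D.hh i) l * exp (-Gk l))
            = D.sys.sm l i v ^ 2 * (hp q ^ 2 * (1 / ek 1 l) * exp (-Gk l)) := by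
          unfold wk
          rw [D.hh_eq hi] at hθ ⊢
          field_simp
        rw [h8, h7]
        have h9 : hp q ^ 2 * (16 ^ l / 10) * exp (-Gk l)
            = hp q ^ 2 / 10 * (16 ^ l * exp (-Gk l)) := by ring
        rw [h9]
        exact mul_le_mul_of_nonneg_right hsm (by positivity)
      · rw [if_neg hi, if_neg hi, zero_mul, zero_mul]
    refine (Finset.sum_le_sum fun i _ => h2 i).trans ?_
    rw [← Finset.sum_mul, ← hE]
    have h6 := gap_sum l
    calc E * (hp q ^ 2 / 10 * (16 ^ l * exp (-Gk l)))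
        = hp q ^ 2 / 10 * E * (16 ^ l * exp (-Gk l)) := by ring
      _ ≤ _ := mul_le_mul_of_nonneg_left h6 (by positivity)
  refine (Finset.sum_le_sum h1).trans ?_
  rw [← Finset.mul_sum, ← Finset.mul_sum]
  have h2 := sum_half_le D.sys.L
  calc hp q ^ 2 / 10 * E * (1 / 10000 * ∑ l ∈ range D.sys.L, (1 / 2 : ℝ) ^ (l + 1))
      ≤ hp q ^ 2 / 10 * E * (1 / 10000 * 1) := by
        apply mul_le_mul_of_nonneg_left _ (by positivity)
        exact mul_le_mul_of_nonneg_left h2 (by norm_num)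
    _ = _ := by ring

/-- The potential (without weight) of a row. -/
noncomputable def ph (F : Finset (Fin n)) (y : Fin n → ℝ) (i : Fin d) : ℝ :=
  D.sys.φ (D.sys.lev F i) F i y

theorem ph_pos (F : Finset (Fin n)) (y : Fin n → ℝ) (i : Fin d) : 0 < D.ph F y i :=
  D.sys.φ_pos _ _ _ _

/-- Sum of the exponents of the tests of level `q`. -/
theorem sum_Th (F : Finset (Fin n)) (y : Fin n → ℝ) (hF : (64 : ℝ) * 2 ^ T < F.card)
    (hz : ∀ q, ∀ v ∈ F, |D.z q v| < 1) (hy : ∀ j, |y j| ≤ 1) (hf : D.sys.f F y ≤ 2 * D.sys.N)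
    {q : ℕ} (hq : q < C.Pm) : ∑ v ∈ F, D.sys.Th F (q, v) y ≤ Mq q * F.card := by
  have hsub : F.image (fun v => ((q, v) : ℕ × Fin n)) ⊆ D.sys.S := by
    intro τ hτ
    obtain ⟨v, hv, rfl⟩ := Finset.mem_image.mp hτ
    show (q, v) ∈ (Finset.range C.Pm ×ˢ Finset.univ).filter (fun τ => |D.z τ.1 τ.2| < 1)
    simp only [Finset.mem_filter, Finset.mem_product, Finset.mem_range, Finset.mem_univ, and_true]
    exact ⟨hq, hz q v hv⟩
  have h1 : rho T q * ∑ v ∈ F, exp (D.sys.Th F (q, v) y) ≤ 4 * F.card := by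
    have h2 : ∑ τ ∈ F.image (fun v => ((q, v) : ℕ × Fin n)), D.sys.wt τ * exp (D.sys.Th F τ y)
        ≤ ∑ τ ∈ D.sys.S, D.sys.wt τ * exp (D.sys.Th F τ y) :=
      Finset.sum_le_sum_of_subset_of_nonneg hsub
        (fun τ hτ _ => mul_nonneg (D.sys.hwt τ hτ).le (exp_pos _).le)
    rw [Finset.sum_image (fun a _ b _ h => (Prod.mk.inj h).2)] at h2
    have h3 : 0 ≤ ∑ j, (1 - y j ^ 2) := by
      refine Finset.sum_nonneg fun j _ => ?_
      have := hy j
      have h3 : y j ^ 2 ≤ 1 := by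
        rw [← sq_abs]; nlinarith [abs_nonneg (y j)]
      linarith
    have h4 : D.sys.f F y = ∑ τ ∈ D.sys.S, D.sys.wt τ * exp (D.sys.Th F τ y)
      + ∑ j, (1 - y j ^ 2) := rfl
    have h5 : D.sys.N = 64 * 2 ^ (T + 1) := rfl
    rw [h4, h5] at hf
    have h6 : ∑ v ∈ F, D.sys.wt (q, v) * exp (D.sys.Th F (q, v) y)
        = rho T q * ∑ v ∈ F, exp (D.sys.Th F (q, v) y) := by
      rw [Finset.mul_sum]; rfl
    rw [h6] at h2
    rw [pow_succ] at hf
    linarith
  set M := Mq q with hM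
  have h3 : ∀ v ∈ F, exp M * (1 + D.sys.Th F (q, v) y - M) ≤ exp (D.sys.Th F (q, v) y) := by
    intro j _
    have h4 := Real.add_one_le_exp (D.sys.Th F (q, j) y - M)
    have h5 : exp (D.sys.Th F (q, j) y) = exp M * exp (D.sys.Th F (q, j) y - M) := by
      rw [← exp_add]; congr 1; ring
    rw [h5]
    apply mul_le_mul_of_nonneg_left _ (exp_pos _).le
    linarith
  have h4 := Finset.sum_le_sum h3
  rw [← Finset.mul_sum, Finset.sum_sub_distrib, Finset.sum_add_distrib, Finset.sum_const,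
    Finset.sum_const, nsmul_eq_mul, nsmul_eq_mul, mul_one] at h4
  have hr := rho_pos T q
  have h5 : rho T q * (exp M * ((F.card : ℝ) + ∑ v ∈ F, D.sys.Th F (q, v) y - F.card * M))
      ≤ rho T q * exp M * F.card := by
    refine (mul_le_mul_of_nonneg_left h4 hr.le).trans (h1.trans ?_)
    exact mul_le_mul_of_nonneg_right (rho_le T q) (Nat.cast_nonneg _)
  rw [← mul_assoc] at h5
  have h7 := le_of_mul_le_mul_left h5 (mul_pos hr (exp_pos _))
  linarith

/-- The rows of one level. -/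
theorem level_sum (F : Finset (Fin n)) (y : Fin n → ℝ) (hF : (64 : ℝ) * 2 ^ T < F.card)
    (hz : ∀ q, ∀ v ∈ F, |D.z q v| < 1) (hy : ∀ j, |y j| ≤ 1) (hf : D.sys.f F y ≤ 2 * D.sys.N)
    {q : ℕ} (hq : q < C.Pm) :
    ∑ i ∈ D.sys.med F, (if lv T i = q then D.ph F y i else 0)
      ≤ 1 / 125 * (1 / ((q : ℝ) + 1) ^ 2) * F.card
        + 16 / 100000 * ∑ v ∈ F, ∑ i, (if lv T i = q then D.ar i v ^ 2 else 0) := by
  have hh0 : 0 < hp q := by have := hp_ge q; linarith
  have h3 : ∑ v ∈ F, ∑ i ∈ D.sys.med F, D.sys.b (q, v) i (D.sys.lev F i) * D.sys.W F y i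
      ≤ Mq q * F.card + hp q ^ 2 * (1 / 100000) *
        ∑ v ∈ F, ∑ i, (if lv T i = q then D.ar i v ^ 2 else 0) := by
    have h4 : ∑ v ∈ F, ∑ i ∈ D.sys.med F, D.sys.b (q, v) i (D.sys.lev F i) * D.sys.W F y i
        = ∑ v ∈ F, D.sys.Th F (q, v) y + ∑ v ∈ F, D.sys.off F (q, v) := by
      rw [← Finset.sum_add_distrib]
      refine Finset.sum_congr rfl fun j _ => ?_
      rw [D.sys.Th_eq]
      unfold Sys.W
      ring
    rw [h4]
    refine add_le_add (D.sum_Th F y hF hz hy hf hq) ?_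
    rw [Finset.mul_sum]
    exact Finset.sum_le_sum fun v hv => D.off_small F hq (hz q v hv)
  have h5 : hp q ^ 2 / 16 * ∑ i ∈ D.sys.med F, (if lv T i = q then D.ph F y i else 0)
      ≤ ∑ v ∈ F, ∑ i ∈ D.sys.med F, D.sys.b (q, v) i (D.sys.lev F i) * D.sys.W F y i := by
    rw [Finset.sum_comm, Finset.mul_sum]
    refine Finset.sum_le_sum fun i hi => ?_
    rw [← Finset.sum_mul]
    by_cases h : lv T i = q
    · rw [if_pos h]
      have hW : D.sys.W F y i = wk 1 (D.hh i) (D.sys.lev F i) * D.ph F y i := rfl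
      have hθ := θk_pos (t := 1) le_rfl (D.hh_ge i) (D.sys.lev F i)
      have he := ek_pos (t := 1) le_rfl (D.sys.lev F i)
      have hph := D.ph_pos F y i
      have h4 := D.sys.lt_Es (D.sys.mem_med.mp hi).2.2.2
      have h6 : D.sys.e (D.sys.lev F i + 1) = ek 1 (D.sys.lev F i) / 16 := by
        rw [← ek_succ]; rfl
      rw [h6] at h4
      have h7 : ∑ v ∈ F, D.sys.b (q, v) i (D.sys.lev F i)
          = D.sys.Es (D.sys.lev F i) F i / θk 1 (D.hh i) (D.sys.lev F i) ^ 2 := by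
        unfold Sys.Es
        rw [Finset.sum_div]
        refine Finset.sum_congr rfl fun j _ => ?_
        rw [D.b_eq, if_pos h]
      rw [h7, hW]
      have h8 : hp q ^ 2 / 16 * D.ph F y i
          = ek 1 (D.sys.lev F i) / 16 / θk 1 (D.hh i) (D.sys.lev F i) ^ 2
            * (wk 1 (D.hh i) (D.sys.lev F i) * D.ph F y i) := by
        unfold wk
        rw [D.hh_eq h] at hθ ⊢
        field_simp
      rw [h8]
      apply mul_le_mul_of_nonneg_right _ (by
        have := wk_pos (t := 1) le_rfl (D.hh_ge i) (D.sys.lev F i)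
        positivity)
      exact div_le_div_of_nonneg_right h4.le (by positivity)
    · rw [if_neg h, mul_zero]
      refine mul_nonneg (Finset.sum_nonneg fun v hv => ?_) (D.sys.W_pos F y i).le
      rw [D.b_eq, if_neg h]
  have h6 := h5.trans h3
  set S1 := ∑ i ∈ D.sys.med F, (if lv T i = q then D.ph F y i else 0)
  set S2 := ∑ v ∈ F, ∑ i, (if lv T i = q then D.ar i v ^ 2 else 0)
  have hsq := hp_sq q
  have hsq0 : 0 < hp q ^ 2 := by positivity
  have h7 : hp q ^ 2 / 16 * S1 ≤ hp q ^ 2 / 16 * (1 / 125 * (1 / ((q : ℝ) + 1) ^ 2) * F.card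
      + 16 / 100000 * S2) := by
    refine h6.trans (le_of_eq ?_)
    have h8 : hp q ^ 2 / 16 * (1 / 125 * (1 / ((q : ℝ) + 1) ^ 2) * F.card) = Mq q * F.card := by
      rw [hsq]; unfold Mq; field_simp; ring
    rw [mul_add, h8]
    ring
  exact le_of_mul_le_mul_left h7 (by positivity)

/-- All rows. -/
theorem total_sum (F : Finset (Fin n)) (y : Fin n → ℝ) (hF : (64 : ℝ) * 2 ^ T < F.card)
    (hz : ∀ q, ∀ v ∈ F, |D.z q v| < 1) (hy : ∀ j, |y j| ≤ 1) (hf : D.sys.f F y ≤ 2 * D.sys.N) :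
    ∑ i ∈ D.sys.med F, D.ph F y i ≤ 1 / 50 * F.card := by
  have h1 : ∑ i ∈ D.sys.med F, D.ph F y i
      = ∑ q ∈ range C.Pm, ∑ i ∈ D.sys.med F, (if lv T i = q then D.ph F y i else 0) := by
    rw [Finset.sum_comm]
    refine Finset.sum_congr rfl fun i _ => ?_
    rw [Finset.sum_ite_eq, if_pos]
    rw [Finset.mem_range]; exact lv_lt C T i
  have h2 : ∑ q ∈ range C.Pm, ∑ v ∈ F, ∑ i, (if lv T i = q then D.ar i v ^ 2 else 0)
      ≤ F.card := by
    rw [Finset.sum_comm]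
    have h3 : ∀ v ∈ F, ∑ q ∈ range C.Pm, ∑ i, (if lv T i = q then D.ar i v ^ 2 else 0) ≤ 1 := by
      intro v _
      rw [Finset.sum_comm]
      have h4 : ∀ i, ∑ q ∈ range C.Pm, (if lv T i = q then D.ar i v ^ 2 else 0) = D.ar i v ^ 2 := by
        intro i
        rw [Finset.sum_ite_eq, if_pos]
        rw [Finset.mem_range]; exact lv_lt C T i
      rw [Finset.sum_congr rfl fun i _ => h4 i]
      exact D.sys.col v
    refine (Finset.sum_le_sum h3).trans ?_
    rw [Finset.sum_const, nsmul_eq_mul, mul_one]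
  rw [h1]
  refine (Finset.sum_le_sum fun q hq =>
    D.level_sum F y hF hz hy hf (Finset.mem_range.mp hq)).trans ?_
  rw [Finset.sum_add_distrib, ← Finset.mul_sum, ← Finset.sum_mul, ← Finset.mul_sum]
  have h3 := sum_sq_le C.Pm
  have h4 : (0 : ℝ) ≤ F.card := Nat.cast_nonneg _
  have h5 : 1 / 125 * (∑ q ∈ range C.Pm, 1 / ((q : ℝ) + 1) ^ 2) * (F.card : ℝ)
      ≤ 1 / 125 * 2 * F.card := by
    apply mul_le_mul_of_nonneg_right _ h4
    linarith
  linarith

end Dat

theorem t_GOOD : S_GOOD := by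
  classical
  intro d n C T D F y hF hz hy hf
  have hm := D.total_sum F y hF hz hy hf
  have hsub : D.sys.R F F ⊆ D.sys.med F := by
    intro i hi
    unfold Sys.R at hi
    exact (@Finset.mem_filter _ _ (_) _ _).mp hi |>.1
  have hc : (0 : ℝ) ≤ F.card := Nat.cast_nonneg _
  constructor
  · have h1 : ∑ i ∈ D.sys.R F F, D.sys.W F y i / D.sys.Yl i (D.sys.lev F i)
        ≤ ∑ i ∈ D.sys.med F, D.ph F y i := by
      refine (Finset.sum_le_sum fun i _ => ?_).trans
        (Finset.sum_le_sum_of_subset_of_nonneg (f := fun i => D.ph F y i) hsub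
          (fun i _ _ => (D.ph_pos F y i).le))
      have hW : D.sys.W F y i = wk 1 (D.hh i) (D.sys.lev F i) * D.ph F y i := rfl
      have hY : D.sys.Yl i (D.sys.lev F i) = yk 1 (D.hh i) (D.sys.lev F i) := rfl
      have h2 := wk_le_yk (t := 1) (h := D.hh i) (D.sys.lev F i)
      have h3 := yk_ge (t := 1) (h := D.hh i) (D.sys.lev F i)
      have h4 := D.ph_pos F y i
      rw [hW, hY, div_le_iff₀ (by linarith), mul_comm (D.ph F y i)]
      exact mul_le_mul_of_nonneg_right h2 h4.le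
    linarith
  · intro Tt hTt
    have h1 : ∑ i ∈ Tt, (1 / 2 : ℝ) ≤ ∑ i ∈ D.sys.med F, D.ph F y i := by
      refine (Finset.sum_le_sum fun i hi => ?_).trans
        (Finset.sum_le_sum_of_subset_of_nonneg (f := fun i => D.ph F y i)
          (fun i hi => hsub (hTt i hi).1) (fun i _ _ => (D.ph_pos F y i).le))
      exact D.sys.tight_le (D.sys.lev F i) i hy (hTt i hi).2
    rw [Finset.sum_const, nsmul_eq_mul] at h1
    linarith

end K19Kom

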